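import Pool.Agent.H.MP_0427c5_lc.Trace

/-!
# Generic group 3SUM-Indexing: counting
-/

namespace GGM3

open Finset
open scoped Classical

variable {K : Type} [Field K] [Fintype K]

/-- the labellings which agree with `σ₀` on `X` -/
noncomputable def Cl (X : Finset K) (σ₀ : Equiv.Perm K) : Finset (Equiv.Perm K) :=
  univ.filter fun σ => ∀ x ∈ X, σ x = σ₀ x

theorem mem_Cl {X : Finset K} {σ₀ σ : Equiv.Perm K} : σ ∈ Cl X σ₀ ↔ ∀ x ∈ X, σ x = σ₀ x := by
  simp [Cl]

theorem mul_sw_mem {X : Finset K} {σ₀ σ : Equiv.Perm K} {L : Finset (K × K)} {z y : K}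
    (h : Good L X z y) (hσ : σ ∈ Cl X σ₀) : σ * sw L z y ∈ Cl X σ₀ := by
  rw [mem_Cl] at hσ ⊢
  intro x hx
  rw [Equiv.Perm.mul_apply, sw_const h (x := x), hσ x hx]
  unfold cs
  exact Finset.mem_union_right _ hx

theorem eq_of_mul_sw {X : Finset K} (σ : Equiv.Perm K) {L : Finset (K × K)} {z y : K}
    (h : Good L X z y) : σ = (σ * sw L z y) * sw L z y := by
  rw [mul_assoc, sw_mul_self h, mul_one]

theorem card_good_ge {L : Finset (K × K)} {X : Finset K} {z : K} (hz : Zok L X z) {s x : ℕ}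
    (hL : L.card ≤ s) (hX : X.card ≤ x) (hq : 2 * (s * (2 * s + x)) ≤ Fintype.card K) :
    Fintype.card K ≤ 2 * (univ.filter fun y => Good L X z y).card := by
  have h1 := card_not_good hz
  have h2 : L.card * (2 * L.card + X.card) ≤ s * (2 * s + x) :=
    Nat.mul_le_mul hL (by omega)
  have h3 : (univ.filter fun y => Good L X z y).card +
      (univ.filter fun y => ¬ Good L X z y).card = Fintype.card K := by
    rw [Finset.card_filter_add_card_filter_not, Finset.card_univ]
  omega

/-- the pairs which lose general position in step `t + 1` -/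
theorem bad_step (R : Alg K) (X : Finset K) (σ₀ : Equiv.Perm K) (t s x : ℕ) (hs : 3 * t + 3 ≤ s)
    (hX : X.card ≤ x) (hq : 2 * (s * (2 * s + x)) ≤ Fintype.card K) :
    ((Cl X σ₀ ×ˢ (univ : Finset K)).filter fun p =>
      Zok (Hs R p.1 p.2 t) X p.2 ∧ ¬ Zok (Fs R p.1 p.2 (t + 1)) X p.2).card ≤
      2 * (s + x) * (Cl X σ₀).card := by
  set Bd := (Cl X σ₀ ×ˢ (univ : Finset K)).filter fun p =>
      Zok (Hs R p.1 p.2 t) X p.2 ∧ ¬ Zok (Fs R p.1 p.2 (t + 1)) X p.2 with hBd
  set U : Finset (Σ _ : Equiv.Perm K × K, K) :=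
    Bd.sigma fun b => univ.filter fun y => Good (Hs R b.1 b.2 t) X b.2 y with hU
  set V : Finset (Σ _ : Equiv.Perm K × K, K × K) :=
    (Cl X σ₀ ×ˢ (univ : Finset K)).sigma fun p =>
      Hs R p.1 p.2 t ∪ X.image (fun x => ((0 : K), x)) with hV
  have hHs : ∀ σ z, (Hs R σ z t).card ≤ s := fun σ z => (card_Hs R σ z t).trans hs
  -- lower bound for `U`
  have h1 : Fintype.card K * Bd.card ≤ 2 * U.card := by
    rw [hU, Finset.card_sigma, Finset.mul_sum, mul_comm, ← smul_eq_mul,
      ← Finset.sum_const]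
    refine Finset.sum_le_sum fun b hb => ?_
    rw [hBd, Finset.mem_filter] at hb
    exact card_good_ge hb.2.1 (hHs _ _) hX hq
  -- upper bound for `V`
  have h2 : V.card ≤ (Cl X σ₀).card * Fintype.card K * (s + x) := by
    rw [hV, Finset.card_sigma]
    have : ∀ p ∈ Cl X σ₀ ×ˢ (univ : Finset K),
        (Hs R p.1 p.2 t ∪ X.image (fun x => ((0 : K), x))).card ≤ s + x := by
      intro p _
      refine (Finset.card_union_le _ _).trans (Nat.add_le_add (hHs _ _) ?_)
      exact Finset.card_image_le.trans hX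
    refine (Finset.sum_le_card_nsmul _ _ _ this).trans ?_
    rw [Finset.card_product, Finset.card_univ, smul_eq_mul]
  -- collisions
  have hcol : ∀ b ∈ Bd, ∃ f ∈ Hs R b.1 b.2 t ∪ X.image (fun x => ((0 : K), x)),
      f.1 ≠ (gg R b.1 b.2 t).1 ∧ ev f b.2 = ev (gg R b.1 b.2 t) b.2 := by
    intro b hb
    rw [hBd, Finset.mem_filter] at hb
    refine collide hb.2.1 ?_
    rw [← Fs_succ]
    exact hb.2.2
  let φ : Equiv.Perm K × K → K × K := fun b =>
    if h : b ∈ Bd then (hcol b h).choose else 0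
  have hφ : ∀ b ∈ Bd, φ b ∈ Hs R b.1 b.2 t ∪ X.image (fun x => ((0 : K), x)) ∧
      b.2 = ((gg R b.1 b.2 t).2 - (φ b).2) / ((φ b).1 - (gg R b.1 b.2 t).1) := by
    intro b hb
    have hb' : φ b = (hcol b hb).choose := by
      simp only [φ, dif_pos hb]
    have h := (hcol b hb).choose_spec
    rw [← hb'] at h
    exact ⟨h.1, root_eq h.2.1 h.2.2⟩
  -- the injection
  have h3 : U.card ≤ V.card := by
    refine Finset.card_le_card_of_injOn
      (fun u => ⟨(u.1.1 * sw (Hs R u.1.1 u.1.2 t) u.1.2 u.2, u.2), φ u.1⟩) ?_ ?_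
    · intro u hu
      have hu := Finset.mem_sigma.mp (Finset.mem_coe.mp hu)
      obtain ⟨hb, hg⟩ := hu
      have hg := (Finset.mem_filter.mp hg).2
      rw [Finset.mem_coe, hV, Finset.mem_sigma]
      have hb' := hb
      rw [hBd, Finset.mem_filter, Finset.mem_product] at hb'
      refine ⟨Finset.mem_product.mpr ⟨mul_sw_mem hg hb'.1.1, Finset.mem_univ _⟩, ?_⟩
      simp only
      rw [(transport_half hg).1]
      exact (hφ _ hb).1
    · intro u hu u' hu' he
      have hu := Finset.mem_sigma.mp (Finset.mem_coe.mp hu)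
      have hu' := Finset.mem_sigma.mp (Finset.mem_coe.mp hu')
      obtain ⟨hb, hg⟩ := hu
      obtain ⟨hb', hg'⟩ := hu'
      have hg := (Finset.mem_filter.mp hg).2
      have hg' := (Finset.mem_filter.mp hg').2
      obtain ⟨⟨σ, z⟩, y⟩ := u
      obtain ⟨⟨σ', z'⟩, y'⟩ := u'
      simp only [Sigma.mk.injEq, Prod.mk.injEq, heq_eq_eq] at he
      obtain ⟨⟨he1, he2⟩, he3⟩ := he
      simp only at hg hg'
      subst he2
      have hH : Hs R σ z t = Hs R σ' z' t := by
        rw [← (transport_half hg).1, ← (transport_half hg').1, he1]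
      have hG : gg R σ z t = gg R σ' z' t := by
        rw [← (transport_half hg).2, ← (transport_half hg').2, he1]
      have hz : z = z' := by
        have e1 := (hφ _ hb).2
        have e2 := (hφ _ hb').2
        simp only at e1 e2
        rw [e1, e2, he3, hG]
      subst hz
      have hσ : σ = σ' := by
        have e1 := eq_of_mul_sw σ hg
        have e2 := eq_of_mul_sw σ' hg'
        rw [e1, e2, he1, hH]
      subst hσ
      rfl
  have hq0 : 0 < Fintype.card K := Fintype.card_pos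
  have h4 : Fintype.card K * Bd.card ≤ Fintype.card K * (2 * (s + x) * (Cl X σ₀).card) := by
    calc _ ≤ 2 * U.card := h1
      _ ≤ 2 * V.card := by omega
      _ ≤ 2 * ((Cl X σ₀).card * Fintype.card K * (s + x)) := by omega
      _ = _ := by ring
  exact Nat.le_of_mul_le_mul_left h4 hq0

/-- the pairs which are not in general position after `T` steps -/
theorem bad_total (R : Alg K) (X : Finset K) (σ₀ : Equiv.Perm K) (T s x : ℕ) (hs : 3 * T + 1 ≤ s)
    (hX : X.card ≤ x) (hq : 2 * (s * (2 * s + x)) ≤ Fintype.card K) :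
    ((Cl X σ₀ ×ˢ (univ : Finset K)).filter fun p =>
      ¬ Zok (Fs R p.1 p.2 T) X p.2).card ≤ (2 * T + 1) * (s + x) * (Cl X σ₀).card := by
  induction T with
  | zero =>
    have h1 : ((Cl X σ₀ ×ˢ (univ : Finset K)).filter fun p =>
        ¬ Zok (Fs R p.1 p.2 0) X p.2) ⊆ Cl X σ₀ ×ˢ X := by
      intro p hp
      rw [Finset.mem_filter, Finset.mem_product] at hp
      rw [Finset.mem_product]
      refine ⟨hp.1.1, ?_⟩
      by_contra hpX
      apply hp.2
      rw [Fs_zero]
      have hn : nc ({((1 : K), (0 : K))} : Finset (K × K)) = {(1, 0)} := by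
        simp [nc, Finset.filter_singleton]
      refine ⟨?_, ?_⟩
      · rw [hn]
        intro f hf g hg _
        rw [Finset.mem_singleton] at hf hg
        rw [hf, hg]
      · rw [hn]
        intro f hf
        rw [Finset.mem_singleton] at hf
        subst hf
        unfold cs
        rw [Finset.mem_union, Finset.mem_image]
        rintro (⟨k, hk, -⟩ | hc)
        · rw [Finset.mem_filter, Finset.mem_singleton] at hk
          obtain ⟨rfl, hk⟩ := hk
          exact one_ne_zero hk
        · simp [ev] at hc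
          exact hpX hc
    refine (Finset.card_le_card h1).trans ?_
    rw [Finset.card_product]
    calc _ ≤ (Cl X σ₀).card * (s + x) := Nat.mul_le_mul_left _ (by omega)
      _ = _ := by ring
  | succ T ih =>
    have ih := ih (by omega)
    have h2 := bad_step R X σ₀ T s x (by omega) hX hq
    have h3 : ((Cl X σ₀ ×ˢ (univ : Finset K)).filter fun p =>
        ¬ Zok (Fs R p.1 p.2 (T + 1)) X p.2) ⊆
        ((Cl X σ₀ ×ˢ (univ : Finset K)).filter fun p => ¬ Zok (Fs R p.1 p.2 T) X p.2) ∪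
        ((Cl X σ₀ ×ˢ (univ : Finset K)).filter fun p =>
          Zok (Hs R p.1 p.2 T) X p.2 ∧ ¬ Zok (Fs R p.1 p.2 (T + 1)) X p.2) := by
      intro p hp
      rw [Finset.mem_filter] at hp
      rw [Finset.mem_union, Finset.mem_filter, Finset.mem_filter]
      by_cases hz : Zok (Fs R p.1 p.2 T) X p.2
      · exact Or.inr ⟨hp.1, zok_Hs hz, hp.2⟩
      · exact Or.inl ⟨hp.1, hz⟩
    refine (Finset.card_le_card h3).trans ((Finset.card_union_le _ _).trans ?_)
    calc _ ≤ (2 * T + 1) * (s + x) * (Cl X σ₀).card + 2 * (s + x) * (Cl X σ₀).card :=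
          Nat.add_le_add ih h2
      _ = _ := by ring

/-- YES answers inside `B` are at most YES answers outside `B` plus the triples in bad position. -/
theorem yes_le (R : Alg K) (X : Finset K) (σ₀ : Equiv.Perm K) (T s x : ℕ) (hs : 3 * T + 1 ≤ s)
    (hX : X.card ≤ x) (hq : 2 * (s * (2 * s + x)) ≤ Fintype.card K) (B : Finset K) :
    (∑ σ ∈ Cl X σ₀, (B.filter fun z => run R σ T z = true).card) * (Bᶜ).card ≤
      (∑ σ ∈ Cl X σ₀, ((Bᶜ).filter fun z => run R σ T z = true).card) * B.card +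
      ((Bᶜ).card * ((2 * T + 1) * (s + x) * (Cl X σ₀).card) +
        (Cl X σ₀).card * B.card * (s * (2 * s + x))) := by
  set P1 : Finset ((Equiv.Perm K × K) × K) := ((Cl X σ₀ ×ˢ B) ×ˢ Bᶜ).filter
    fun p => run R p.1.1 T p.1.2 = true with hP1
  set P2 : Finset ((Equiv.Perm K × K) × K) := ((Cl X σ₀ ×ˢ B) ×ˢ Bᶜ).filter
    fun p => run R p.1.1 T p.2 = true with hP2
  set E : Finset (Equiv.Perm K × K) := (Cl X σ₀ ×ˢ (univ : Finset K)).filter
    fun p => ¬ Zok (Fs R p.1 p.2 T) X p.2 with hE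
  set N : Finset ((Equiv.Perm K × K) × K) := ((Cl X σ₀ ×ˢ B) ×ˢ Bᶜ).filter
    fun p => Zok (Fs R p.1.1 p.1.2 T) X p.1.2 ∧ ¬ Good (Fs R p.1.1 p.1.2 T) X p.1.2 p.2 with hN
  have c1 : P1.card = (∑ σ ∈ Cl X σ₀, (B.filter fun z => run R σ T z = true).card) *
      (Bᶜ).card := by
    have : P1 = ((Cl X σ₀ ×ˢ B).filter fun p => run R p.1 T p.2 = true) ×ˢ Bᶜ := by
      ext p
      simp only [hP1, Finset.mem_filter, Finset.mem_product]
      tauto
    rw [this, Finset.card_product]
    congr 1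
    rw [Finset.card_filter, Finset.sum_product]
    refine Finset.sum_congr rfl fun σ _ => ?_
    rw [Finset.card_filter]
  have c2 : P2.card = (∑ σ ∈ Cl X σ₀, ((Bᶜ).filter fun z => run R σ T z = true).card) *
      B.card := by
    rw [hP2, Finset.card_filter, Finset.sum_product, Finset.sum_product, Finset.sum_mul]
    refine Finset.sum_congr rfl fun σ _ => ?_
    change (∑ _y ∈ B, ∑ y ∈ Bᶜ, if run R σ T y = true then 1 else 0) = _
    rw [Finset.card_filter, Finset.sum_const, smul_eq_mul, mul_comm]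
  have cE : E.card ≤ (2 * T + 1) * (s + x) * (Cl X σ₀).card := bad_total R X σ₀ T s x hs hX hq
  have cN : N.card ≤ (Cl X σ₀).card * B.card * (s * (2 * s + x)) := by
    rw [hN, Finset.card_filter, Finset.sum_product]
    have h1 : ∀ p ∈ Cl X σ₀ ×ˢ B, (∑ y ∈ Bᶜ, if Zok (Fs R p.1 p.2 T) X p.2 ∧
        ¬ Good (Fs R p.1 p.2 T) X p.2 y then 1 else 0) ≤ s * (2 * s + x) := by
      intro p _
      rw [← Finset.card_filter]
      by_cases hz : Zok (Fs R p.1 p.2 T) X p.2
      · have h2 : ((Bᶜ).filter fun y => Zok (Fs R p.1 p.2 T) X p.2 ∧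
            ¬ Good (Fs R p.1 p.2 T) X p.2 y) ⊆
            univ.filter fun y => ¬ Good (Fs R p.1 p.2 T) X p.2 y := by
          intro y hy
          rw [Finset.mem_filter] at hy ⊢
          exact ⟨Finset.mem_univ _, hy.2.2⟩
        refine (Finset.card_le_card h2).trans ((card_not_good hz).trans ?_)
        have h3 : (Fs R p.1 p.2 T).card ≤ s := (card_Fs R p.1 p.2 T).trans hs
        exact Nat.mul_le_mul h3 (by omega)
      · have h2 : ((Bᶜ).filter fun y => Zok (Fs R p.1 p.2 T) X p.2 ∧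
            ¬ Good (Fs R p.1 p.2 T) X p.2 y) = ∅ := by
          apply Finset.filter_eq_empty_iff.mpr
          intro y _ h
          exact hz h.1
        rw [h2, Finset.card_empty]
        exact Nat.zero_le _
    refine (Finset.sum_le_card_nsmul _ _ _ h1).trans ?_
    rw [Finset.card_product, smul_eq_mul]
  -- the decomposition
  have h1 : P1 ⊆ (P1.filter fun p => Good (Fs R p.1.1 p.1.2 T) X p.1.2 p.2) ∪
      ((E ×ˢ Bᶜ) ∪ N) := by
    intro p hp
    have hp' := hp
    rw [hP1, Finset.mem_filter, Finset.mem_product, Finset.mem_product] at hp'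
    rw [Finset.mem_union, Finset.mem_union]
    by_cases hg : Good (Fs R p.1.1 p.1.2 T) X p.1.2 p.2
    · exact Or.inl (Finset.mem_filter.mpr ⟨hp, hg⟩)
    by_cases hz : Zok (Fs R p.1.1 p.1.2 T) X p.1.2
    · refine Or.inr (Or.inr ?_)
      rw [hN, Finset.mem_filter, Finset.mem_product, Finset.mem_product]
      exact ⟨hp'.1, hz, hg⟩
    · refine Or.inr (Or.inl ?_)
      rw [Finset.mem_product, hE, Finset.mem_filter, Finset.mem_product]
      exact ⟨⟨⟨hp'.1.1.1, Finset.mem_univ _⟩, hz⟩, hp'.1.2⟩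
  have h2 : (P1.filter fun p => Good (Fs R p.1.1 p.1.2 T) X p.1.2 p.2).card ≤ P2.card := by
    refine Finset.card_le_card_of_injOn
      (fun p => ((p.1.1 * sw (Fs R p.1.1 p.1.2 T) p.1.2 p.2, p.1.2), p.2)) ?_ ?_
    · intro p hp
      rw [Finset.mem_coe, Finset.mem_filter, hP1, Finset.mem_filter, Finset.mem_product,
        Finset.mem_product] at hp
      obtain ⟨⟨⟨⟨h3, h4⟩, h5⟩, h6⟩, hg⟩ := hp
      rw [Finset.mem_coe, hP2, Finset.mem_filter, Finset.mem_product, Finset.mem_product]
      refine ⟨⟨⟨mul_sw_mem hg h3, h4⟩, h5⟩, ?_⟩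
      simp only
      rw [(transport_run hg).1, h6]
    · intro p hp p' hp' he
      rw [Finset.mem_coe, Finset.mem_filter] at hp hp'
      obtain ⟨⟨σ, z⟩, y⟩ := p
      obtain ⟨⟨σ', z'⟩, y'⟩ := p'
      simp only [Prod.mk.injEq] at he
      obtain ⟨⟨he1, rfl⟩, rfl⟩ := he
      have hg := hp.2
      have hg' := hp'.2
      simp only at hg hg'
      have hH : Fs R σ z T = Fs R σ' z T := by
        rw [← (transport_run hg).2, ← (transport_run hg').2, he1]
      have hσ : σ = σ' := by
        have e1 := eq_of_mul_sw σ hg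
        have e2 := eq_of_mul_sw σ' hg'
        rw [e1, e2, he1, hH]
      subst hσ
      rfl
  rw [← c1, ← c2]
  have h3 := Finset.card_le_card h1
  have h4 := Finset.card_union_le (P1.filter fun p => Good (Fs R p.1.1 p.1.2 T) X p.1.2 p.2)
    ((E ×ˢ Bᶜ) ∪ N)
  have h5 := Finset.card_union_le (E ×ˢ Bᶜ) N
  rw [Finset.card_product] at h5
  have h6 : E.card * (Bᶜ).card ≤ (Bᶜ).card * ((2 * T + 1) * (s + x) * (Cl X σ₀).card) := by
    rw [mul_comm]
    exact Nat.mul_le_mul_left _ cE
  omega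

end GGM3
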