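import Mathlib

/-!
# Generic group data structures for 3SUM-Indexing

The group is the additive group of a finite field `K` (for instance the integers modulo a prime). Group
elements are only visible through labels; the labelling is a bijection `σ` of `K` with the set of labels,
and the set of labels is `K` itself, regarded as a set of names without any structure.
-/

namespace GGM3

/-- An oracle call `(u, v, c, d, e)`: the label of `c x + d y + e` is requested, where `x` and `y` are
the group elements with labels `u` and `v`. -/
structure Call (K : Type) where
  /-- first label -/
  u : K
  /-- second label -/
  v : K
  /-- first coefficient -/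
  c : K
  /-- second coefficient -/
  d : K
  /-- constant -/
  e : K

/-- A query algorithm (for fixed memory and fixed coins): from the label of the query and the list of
the labels received so far (the last one first) it computes the next oracle call, and at the end
the answer. -/
structure Alg (K : Type) where
  /-- the next oracle call -/
  next : K → List K → Call K
  /-- the final answer -/
  out : K → List K → Bool

variable {K : Type} [Field K]

/-- The reply of the oracle. -/
def reply (σ : Equiv.Perm K) (o : Call K) : K :=
  σ (o.c * σ.symm o.u + o.d * σ.symm o.v + o.e)

/-- The labels received in the first `t` oracle calls, when the label of the query is `ζ`. -/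
def answers (R : Alg K) (σ : Equiv.Perm K) (ζ : K) : ℕ → List K
  | 0 => []
  | t + 1 => reply σ (R.next ζ (answers R σ ζ t)) :: answers R σ ζ t

/-- The answer to the query `z` after `T` oracle calls. The algorithm only receives the label of `z`. -/
def run (R : Alg K) (σ : Equiv.Perm K) (T : ℕ) (z : K) : Bool :=
  R.out (σ z) (answers R σ (σ z) T)

/-- A data structure with `S` bits of memory and public coins in `Ω`: the memory is an arbitrary function
of the coins and of the whole labelling; the query algorithm sees the coins and the whole memory. -/
structure DataStructure (K : Type) (S : ℕ) (Ω : Type) where
  /-- preprocessing: the content of the memory -/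
  pre : Ω → Equiv.Perm K → Fin (2 ^ S)
  /-- the query algorithm, given the coins and the memory -/
  query : Ω → Fin (2 ^ S) → Alg K

variable [Fintype K] [DecidableEq K]

/-- The probability that the answer to the question `z ∈ B` is right, if `z` is uniformly distributed in
`B` with probability `1/2` and in the complement of `B` with probability `1/2`. -/
noncomputable def hit (R : Alg K) (σ : Equiv.Perm K) (T : ℕ) (B : Finset K) : ℝ :=
  (((B.filter fun z => run R σ T z = true).card : ℝ) / B.card +
    ((Bᶜ.filter fun z => run R σ T z = false).card : ℝ) / (Bᶜ).card) / 2

/-- The average of the success probability over all coins and all labellings. -/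
noncomputable def success {S : ℕ} {Ω : Type} [Fintype Ω] (D : DataStructure K S Ω) (T : ℕ)
    (B : Finset K) : ℝ :=
  (∑ ω, ∑ σ, hit (D.query ω (D.pre ω σ)) σ T B) /
    (Fintype.card Ω * Fintype.card (Equiv.Perm K))

end GGM3
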