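import Pool.Agent.H.MP_0427c5_lc.Moment

/-!
# Generic group 3SUM-Indexing: the lower bound
-/

namespace GGM3

open Finset

section

variable {K : Type} [Field K] [Fintype K] [DecidableEq K]

theorem hit_le_one (R : Alg K) (σ : Equiv.Perm K) (T : ℕ) (B : Finset K) : hit R σ T B ≤ 1 := by
  unfold hit
  have h1 : ((B.filter fun z => run R σ T z = true).card : ℝ) / B.card ≤ 1 := by
    apply div_le_one_of_le₀ _ (Nat.cast_nonneg _)
    exact_mod_cast Finset.card_filter_le _ _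
  have h2 : (((Bᶜ).filter fun z => run R σ T z = false).card : ℝ) / (Bᶜ).card ≤ 1 := by
    apply div_le_one_of_le₀ _ (Nat.cast_nonneg _)
    exact_mod_cast Finset.card_filter_le _ _
  linarith

theorem hit_nonneg' (R : Alg K) (σ : Equiv.Perm K) (T : ℕ) (B : Finset K) : 0 ≤ hit R σ T B := by
  unfold hit
  positivity

/-- moments for a fixed algorithm -/
theorem moment_univ (R : Alg K) (T s m : ℕ) (hs : 3 * T + 1 ≤ s) (B : Finset K) (hB : 0 < B.card)
    (hB' : B.card ≤ (Bᶜ).card) (hq : 2 * (s * s * (m + 1)) ≤ Fintype.card K) :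
    ∑ σ, hit R σ T B ^ m ≤ ((1 + ((s * s * (2 * m + 1) : ℕ) : ℝ) / B.card) / 2) ^ m *
      Fintype.card (Equiv.Perm K) := by
  classical
  have hinst : ‹DecidableEq K› = fun a b => Classical.propDecidable (a = b) :=
    Subsingleton.elim _ _
  subst hinst
  have h := moment R T s m hs B hB hB' hq m ∅ 1 (by simp)
  have h1 : Cl (∅ : Finset K) (1 : Equiv.Perm K) = Finset.univ := by
    ext σ
    simp [mem_Cl]
  rw [h1, Finset.card_univ] at h
  exact h

/-- Main bound: `γ² |B| ≤ 45 (S+1) (T+1)²`. -/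
theorem bound (B : Finset K) (hB : 2 * B.card ≤ Fintype.card K) {S T : ℕ} {Ω : Type} [Fintype Ω]
    (D : DataStructure K S Ω) (γ : ℝ) (hγ : 0 < γ) (h : 1 / 2 + γ ≤ success D T B) :
    γ ^ 2 * B.card ≤ 45 * (S + 1) * (T + 1) ^ 2 := by
  by_contra hcon
  rw [not_le] at hcon
  have hS0 : (0 : ℝ) ≤ S := Nat.cast_nonneg _
  have hT0 : (0 : ℝ) ≤ T := Nat.cast_nonneg _
  have hβ : (0 : ℝ) < B.card := by
    by_contra hc
    have hc' : (B.card : ℝ) = 0 := le_antisymm (not_lt.mp hc) (Nat.cast_nonneg _)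
    rw [hc', mul_zero] at hcon
    have : (0 : ℝ) ≤ 45 * (S + 1) * (T + 1) ^ 2 := by positivity
    linarith
  have hβN : 0 < B.card := by exact_mod_cast hβ
  have hBc : B.card ≤ (Bᶜ).card := by
    rw [Finset.card_compl]
    omega
  -- normalisation
  set W : ℝ := (Fintype.card Ω : ℝ) * Fintype.card (Equiv.Perm K) with hW
  have hP : (0 : ℝ) < Fintype.card (Equiv.Perm K) := by
    exact_mod_cast Fintype.card_pos
  have hΩ : (0 : ℝ) < Fintype.card Ω := by
    by_contra hc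
    have hc' : (Fintype.card Ω : ℝ) = 0 := le_antisymm (not_lt.mp hc) (Nat.cast_nonneg _)
    have : success D T B = 0 := by
      unfold success
      rw [hc', zero_mul, div_zero]
    rw [this] at h
    linarith
  have hWpos : 0 < W := mul_pos hΩ hP
  let H : Ω × Equiv.Perm K → ℝ := fun q => hit (D.query q.1 (D.pre q.1 q.2)) q.2 T B
  have hH0 : ∀ q, 0 ≤ H q := fun q => hit_nonneg' _ _ _ _
  have hH1 : ∀ q, H q ≤ 1 := fun q => hit_le_one _ _ _ _
  have hsucc : success D T B = ∑ q, (1 / W) * H q := by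
    unfold success
    rw [← Finset.mul_sum, ← Finset.univ_product_univ, Finset.sum_product, one_div,
      div_eq_inv_mul]
  have hw : ∑ _q : Ω × Equiv.Perm K, (1 / W) = 1 := by
    rw [Finset.sum_const, Finset.card_univ, Fintype.card_prod, nsmul_eq_mul]
    push_cast
    rw [← hW, mul_one_div_cancel hWpos.ne']
  -- `γ ≤ 1/2`
  have hγ2 : γ ≤ 1 / 2 := by
    have h1 : success D T B ≤ 1 := by
      calc success D T B = ∑ q, (1 / W) * H q := hsucc
        _ ≤ ∑ _q : Ω × Equiv.Perm K, (1 / W) := Finset.sum_le_sum fun q _ =>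
            mul_le_of_le_one_right (one_div_pos.mpr hWpos).le (hH1 q)
        _ = 1 := hw
    linarith
  -- parameters
  set k : ℕ := ⌈3 / (2 * γ)⌉₊ with hk
  set m : ℕ := (S + 1) * k with hm
  set s : ℕ := 3 * T + 1 with hs
  have hk1 : 3 / (2 * γ) ≤ k := Nat.le_ceil _
  have hk2 : (k : ℝ) ≤ 3 / (2 * γ) + 1 := (Nat.ceil_lt_add_one (by positivity)).le
  have hk2' : (k : ℝ) * γ ≤ 3 / 2 + γ := by
    have h1 : 3 / (2 * γ) * γ = 3 / 2 := by field_simp
    calc (k : ℝ) * γ ≤ (3 / (2 * γ) + 1) * γ := mul_le_mul_of_nonneg_right hk2 hγ.le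
      _ = 3 / 2 + γ := by rw [add_mul, h1, one_mul]
  have hk1' : 3 / 2 ≤ (k : ℝ) * γ := by
    have h1 : 3 / (2 * γ) * γ = 3 / 2 := by field_simp
    calc (3 : ℝ) / 2 = 3 / (2 * γ) * γ := h1.symm
      _ ≤ _ := mul_le_mul_of_nonneg_right hk1 hγ.le
  -- `s² (2m+1) ≤ γ β`
  have hδ : ((s * s * (2 * m + 1) : ℕ) : ℝ) ≤ γ * B.card := by
    have h1 : ((s * s : ℕ) : ℝ) ≤ 9 * (T + 1) ^ 2 := by
      rw [hs]
      push_cast
      nlinarith
    have h2 : ((2 * m + 1 : ℕ) : ℝ) * γ ≤ (S + 1) * (9 / 2) := by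
      rw [hm]
      push_cast
      have h3 : (2 * ((S : ℝ) + 1) * k + 1) * γ ≤ (S + 1) * ((2 * k + 1) * γ) := by
        nlinarith
      have h4 : (2 * (k : ℝ) + 1) * γ ≤ 9 / 2 := by nlinarith
      calc (2 * (((S : ℝ) + 1) * k) + 1) * γ = (2 * ((S : ℝ) + 1) * k + 1) * γ := by ring
        _ ≤ (S + 1) * ((2 * k + 1) * γ) := h3
        _ ≤ (S + 1) * (9 / 2) := mul_le_mul_of_nonneg_left h4 (by positivity)
    have h3 : ((s * s * (2 * m + 1) : ℕ) : ℝ) * γ ≤ 45 * (S + 1) * (T + 1) ^ 2 := by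
      push_cast at h1 h2 ⊢
      calc (s : ℝ) * s * (2 * m + 1) * γ = ((s : ℝ) * s) * ((2 * m + 1) * γ) := by ring
        _ ≤ (9 * (T + 1) ^ 2) * ((S + 1) * (9 / 2)) := by
            apply mul_le_mul h1 h2 (by positivity) (by positivity)
        _ = 81 / 2 * (S + 1) * (T + 1) ^ 2 := by ring
        _ ≤ 45 * (S + 1) * (T + 1) ^ 2 := by
            apply mul_le_mul_of_nonneg_right _ (by positivity)
            nlinarith
    have h4 : ((s * s * (2 * m + 1) : ℕ) : ℝ) * γ ≤ (γ * B.card) * γ := by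
      calc _ ≤ 45 * ((S : ℝ) + 1) * ((T : ℝ) + 1) ^ 2 := h3
        _ ≤ γ ^ 2 * B.card := hcon.le
        _ = _ := by ring
    exact le_of_mul_le_mul_right h4 hγ
  have hq : 2 * (s * s * (m + 1)) ≤ Fintype.card K := by
    have h1 : ((s * s * (2 * m + 1) : ℕ) : ℝ) ≤ B.card := by
      refine hδ.trans ?_
      nlinarith
    have h2 : s * s * (2 * m + 1) ≤ B.card := by exact_mod_cast h1
    have h3 : s * s * (m + 1) ≤ s * s * (2 * m + 1) := Nat.mul_le_mul_left _ (by omega)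
    omega
  set ρ : ℝ := (1 + ((s * s * (2 * m + 1) : ℕ) : ℝ) / B.card) / 2 with hρ
  have hρle : ρ ≤ (1 + γ) / 2 := by
    have : ((s * s * (2 * m + 1) : ℕ) : ℝ) / B.card ≤ γ := by
      rw [div_le_iff₀ hβ]
      exact hδ
    rw [hρ]
    linarith
  have hρ0 : 0 ≤ ρ := by positivity
  -- upper bound for the moments
  have hup : ∑ q, (1 / W) * H q ^ m ≤ 2 ^ S * ρ ^ m := by
    have h1 : ∀ ω : Ω, ∑ σ, H (ω, σ) ^ m ≤ 2 ^ S * (ρ ^ m * Fintype.card (Equiv.Perm K)) := by
      intro ω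
      calc ∑ σ, H (ω, σ) ^ m ≤ ∑ σ, ∑ μ : Fin (2 ^ S), hit (D.query ω μ) σ T B ^ m := by
            refine Finset.sum_le_sum fun σ _ => ?_
            exact Finset.single_le_sum (f := fun μ : Fin (2 ^ S) => hit (D.query ω μ) σ T B ^ m)
              (fun μ _ => pow_nonneg (hit_nonneg' _ _ _ _) m) (Finset.mem_univ (D.pre ω σ))
        _ = ∑ μ : Fin (2 ^ S), ∑ σ, hit (D.query ω μ) σ T B ^ m := Finset.sum_comm
        _ ≤ ∑ _μ : Fin (2 ^ S), ρ ^ m * Fintype.card (Equiv.Perm K) :=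
            Finset.sum_le_sum fun μ _ => moment_univ (D.query ω μ) T s m le_rfl B hβN hBc hq
        _ = 2 ^ S * (ρ ^ m * Fintype.card (Equiv.Perm K)) := by
            rw [Finset.sum_const, Finset.card_univ, Fintype.card_fin, nsmul_eq_mul]
            push_cast
            rfl
    rw [← Finset.mul_sum, ← Finset.univ_product_univ, Finset.sum_product]
    have h2 : ∑ ω : Ω, ∑ σ, H (ω, σ) ^ m ≤
        (Fintype.card Ω : ℝ) * (2 ^ S * (ρ ^ m * Fintype.card (Equiv.Perm K))) := by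
      calc _ ≤ ∑ _ω : Ω, 2 ^ S * (ρ ^ m * (Fintype.card (Equiv.Perm K) : ℝ)) :=
            Finset.sum_le_sum fun ω _ => h1 ω
        _ = _ := by rw [Finset.sum_const, Finset.card_univ, nsmul_eq_mul]
    calc 1 / W * ∑ ω : Ω, ∑ σ, H (ω, σ) ^ m
        ≤ 1 / W * ((Fintype.card Ω : ℝ) * (2 ^ S * (ρ ^ m * Fintype.card (Equiv.Perm K)))) :=
          mul_le_mul_of_nonneg_left h2 (one_div_pos.mpr hWpos).le
      _ = 2 ^ S * ρ ^ m := by
          rw [hW]
          field_simp
  -- Jensen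
  have hJ : (1 / 2 + γ) ^ m ≤ 2 ^ S * ρ ^ m := by
    calc (1 / 2 + γ) ^ m ≤ (∑ q, (1 / W) * H q) ^ m := by
          rw [← hsucc]
          exact pow_le_pow_left₀ (by linarith) h m
      _ ≤ ∑ q, (1 / W) * H q ^ m :=
          Real.pow_arith_mean_le_arith_mean_pow Finset.univ (fun _ => 1 / W) H
            (fun _ _ => (one_div_pos.mpr hWpos).le) hw (fun q _ => hH0 q) m
      _ ≤ _ := hup
  have hJ2 : (1 + 2 * γ) ^ m ≤ 2 ^ S * (1 + γ) ^ m := by
    have h1 : ρ ^ m ≤ ((1 + γ) / 2) ^ m := pow_le_pow_left₀ hρ0 hρle m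
    have h2 : (1 / 2 + γ) ^ m = (1 + 2 * γ) ^ m / 2 ^ m := by
      rw [← div_pow]
      congr 1
      ring
    have h3 : (1 + 2 * γ) ^ m / 2 ^ m ≤ 2 ^ S * ((1 + γ) ^ m / 2 ^ m) := by
      rw [← h2, ← div_pow]
      exact hJ.trans (mul_le_mul_of_nonneg_left h1 (by positivity))
    rw [mul_div_assoc', div_le_div_iff_of_pos_right (by positivity)] at h3
    exact h3
  -- growth
  have hgrow : (2 : ℝ) * (1 + γ) ^ k ≤ (1 + 2 * γ) ^ k := by
    have h1 : (1 + γ) * (1 + 2 * γ / 3) ≤ 1 + 2 * γ := by nlinarith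
    have h2 : (2 : ℝ) ≤ (1 + 2 * γ / 3) ^ k := by
      have h3 := one_add_mul_le_pow (a := 2 * γ / 3) (by linarith) k
      nlinarith
    calc (2 : ℝ) * (1 + γ) ^ k ≤ (1 + 2 * γ / 3) ^ k * (1 + γ) ^ k :=
          mul_le_mul_of_nonneg_right h2 (by positivity)
      _ = ((1 + γ) * (1 + 2 * γ / 3)) ^ k := by rw [mul_pow]; ring
      _ ≤ _ := pow_le_pow_left₀ (by positivity) h1 k
  have hgrow2 : (2 : ℝ) ^ (S + 1) * (1 + γ) ^ m ≤ (1 + 2 * γ) ^ m := by
    rw [hm, mul_comm (S + 1) k, pow_mul, pow_mul, ← mul_pow]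
    exact pow_le_pow_left₀ (by positivity) hgrow (S + 1)
  have hpos : (0 : ℝ) < 2 ^ S * (1 + γ) ^ m := by positivity
  have : (2 : ℝ) ^ (S + 1) * (1 + γ) ^ m = 2 * (2 ^ S * (1 + γ) ^ m) := by ring
  linarith

end

/-- Sidon sets of `n` numbers below `n³` -/
theorem exists_sidon (n : ℕ) : ∃ A : Finset ℕ, A.card = n ∧ (∀ a ∈ A, a < n ^ 3) ∧
    ∀ a ∈ A, ∀ b ∈ A, ∀ c ∈ A, ∀ d ∈ A, a + b = c + d → (a = c ∧ b = d) ∨ (a = d ∧ b = c) := by
  induction n with
  | zero => exact ⟨∅, rfl, by simp, by simp⟩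
  | succ n ih =>
    obtain ⟨A, hA, hlt, hS⟩ := ih
    set F : Finset ℕ := ((A ×ˢ A) ×ˢ A).image (fun q => q.1.1 + q.1.2 - q.2) ∪
      (A ×ˢ A).image (fun q => (q.1 + q.2) / 2) with hF
    have hFc : F.card ≤ n ^ 3 + n ^ 2 := by
      refine (Finset.card_union_le _ _).trans (Nat.add_le_add ?_ ?_)
      · refine Finset.card_image_le.trans ?_
        rw [Finset.card_product, Finset.card_product, hA]
        exact le_of_eq (by ring)
      · refine Finset.card_image_le.trans ?_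
        rw [Finset.card_product, hA]
        exact le_of_eq (by ring)
    obtain ⟨x, hx, hxF⟩ : ∃ x ∈ Finset.range (n ^ 3 + n ^ 2 + 1), x ∉ F := by
      apply Finset.exists_mem_notMem_of_card_lt_card
      rw [Finset.card_range]
      omega
    rw [Finset.mem_range] at hx
    have h1 : ∀ b ∈ A, ∀ c ∈ A, ∀ d ∈ A, x + b ≠ c + d := by
      intro b hb c hc d hd he
      apply hxF
      rw [hF, Finset.mem_union, Finset.mem_image]
      refine Or.inl ⟨((c, d), b), ?_, ?_⟩
      · exact Finset.mem_product.mpr ⟨Finset.mem_product.mpr ⟨hc, hd⟩, hb⟩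
      · simp only
        omega
    have h2 : ∀ c ∈ A, ∀ d ∈ A, x + x ≠ c + d := by
      intro c hc d hd he
      apply hxF
      rw [hF, Finset.mem_union, Finset.mem_image, Finset.mem_image]
      refine Or.inr ⟨(c, d), Finset.mem_product.mpr ⟨hc, hd⟩, ?_⟩
      simp only
      omega
    have hxA : x ∉ A := fun h => h1 x h x h x h rfl
    have hb3 : n ^ 3 + n ^ 2 + 1 ≤ (n + 1) ^ 3 := by nlinarith [sq_nonneg n]
    refine ⟨insert x A, ?_, ?_, ?_⟩
    · rw [Finset.card_insert_of_notMem hxA, hA]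
    · intro a ha
      rcases Finset.mem_insert.mp ha with rfl | ha
      · omega
      · have := hlt a ha
        have : n ^ 3 ≤ (n + 1) ^ 3 := Nat.pow_le_pow_left (Nat.le_succ n) 3
        omega
    · intro a ha b hb c hc d hd he
      rcases Finset.mem_insert.mp ha with ha | ha <;>
      rcases Finset.mem_insert.mp hb with hb | hb <;>
      rcases Finset.mem_insert.mp hc with hc | hc <;>
      rcases Finset.mem_insert.mp hd with hd | hd
      · exact Or.inl ⟨by omega, by omega⟩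
      · exact Or.inl ⟨by omega, by omega⟩
      · exact Or.inl ⟨by omega, by omega⟩
      · exact absurd (by omega) (h2 c hc d hd)
      · exact Or.inl ⟨by omega, by omega⟩
      · exact Or.inl ⟨by omega, by omega⟩
      · exact Or.inr ⟨by omega, by omega⟩
      · exact absurd (by omega) (h1 b hb c hc d hd)
      · exact Or.inl ⟨by omega, by omega⟩
      · exact Or.inr ⟨by omega, by omega⟩
      · exact Or.inl ⟨by omega, by omega⟩
      · exact absurd (by omega) (h1 a ha c hc d hd)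
      · exact absurd (by omega) (h2 a ha b hb)
      · exact absurd (by omega) (h1 d hd a ha b hb)
      · exact absurd (by omega) (h1 c hc a ha b hb)
      · exact hS a ha b hb c hc d hd he

end GGM3
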