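import Pool.Agent.H.MP_0427c5_lc.Count

/-!
# Generic group 3SUM-Indexing: moments of the success probability for a fixed memory
-/

namespace GGM3

open Finset
open scoped Classical

variable {K : Type} [Field K] [Fintype K]

/-- indicator of an answer -/
noncomputable def ind (R : Alg K) (T : ℕ) (z : K) (b : Bool) (σ : Equiv.Perm K) : ℝ :=
  if run R σ T z = b then 1 else 0

theorem hit_eq (R : Alg K) (σ : Equiv.Perm K) (T : ℕ) (B : Finset K) :
    hit R σ T B = ((∑ z ∈ B, ind R T z true σ) / B.card +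
      (∑ z ∈ Bᶜ, ind R T z false σ) / (Bᶜ).card) / 2 := by
  unfold hit ind
  rw [Finset.sum_boole, Finset.sum_boole]

theorem hit_nonneg (R : Alg K) (σ : Equiv.Perm K) (T : ℕ) (B : Finset K) : 0 ≤ hit R σ T B := by
  unfold hit
  positivity

/-- first moment -/
theorem hit_sum (R : Alg K) (X : Finset K) (σ₀ : Equiv.Perm K) (T s x : ℕ) (hs : 3 * T + 1 ≤ s)
    (hX : X.card ≤ x) (hq : 2 * (s * (2 * s + x)) ≤ Fintype.card K) (B : Finset K)
    (hB : 0 < B.card) (hB' : B.card ≤ (Bᶜ).card) :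
    ∑ σ ∈ Cl X σ₀, hit R σ T B ≤
      (1 + (((2 * T + 1) * (s + x) + s * (2 * s + x) : ℕ) : ℝ) / B.card) / 2 *
        (Cl X σ₀).card := by
  have h0 := yes_le R X σ₀ T s x hs hX hq B
  set A : ℕ := ∑ σ ∈ Cl X σ₀, (B.filter fun z => run R σ T z = true).card with hA
  set A' : ℕ := ∑ σ ∈ Cl X σ₀, ((Bᶜ).filter fun z => run R σ T z = true).card with hA'
  have hb : (0 : ℝ) < B.card := by exact_mod_cast hB
  have hb' : (0 : ℝ) < (Bᶜ).card := by exact_mod_cast hB.trans_le hB'
  have hle : (B.card : ℝ) ≤ (Bᶜ).card := by exact_mod_cast hB'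
  have h1 : ∀ σ, hit R σ T B = (1 + ((B.filter fun z => run R σ T z = true).card : ℝ) / B.card -
      (((Bᶜ).filter fun z => run R σ T z = true).card : ℝ) / (Bᶜ).card) / 2 := by
    intro σ
    have h2 : ((Bᶜ).filter fun z => run R σ T z = true).card +
        ((Bᶜ).filter fun z => run R σ T z = false).card = (Bᶜ).card := by
      have h3 : ((Bᶜ).filter fun z => run R σ T z = false) =
          (Bᶜ).filter fun z => ¬ (run R σ T z = true) := by
        refine Finset.filter_congr fun z _ => ?_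
        simp
      rw [h3]
      exact Finset.card_filter_add_card_filter_not _
    have h4 : (((Bᶜ).filter fun z => run R σ T z = false).card : ℝ) =
        (Bᶜ).card - ((Bᶜ).filter fun z => run R σ T z = true).card := by
      have : ((((Bᶜ).filter fun z => run R σ T z = true).card +
        ((Bᶜ).filter fun z => run R σ T z = false).card : ℕ) : ℝ) = (Bᶜ).card := by
        rw [h2]
      push_cast at this
      linarith
    unfold hit
    rw [h4, sub_div, div_self hb'.ne']
    ring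
  have h2 : ∑ σ ∈ Cl X σ₀, hit R σ T B =
      ((Cl X σ₀).card + (A : ℝ) / B.card - (A' : ℝ) / (Bᶜ).card) / 2 := by
    rw [Finset.sum_congr rfl fun σ _ => h1 σ, ← Finset.sum_div, Finset.sum_sub_distrib,
      Finset.sum_add_distrib, Finset.sum_const, nsmul_eq_mul, mul_one, ← Finset.sum_div,
      ← Finset.sum_div, hA, hA']
    push_cast
    rfl
  have h3 : (A : ℝ) * (Bᶜ).card ≤ A' * B.card +
      ((Bᶜ).card * ((((2 * T + 1) * (s + x) : ℕ) : ℝ) * (Cl X σ₀).card) +
        (Cl X σ₀).card * B.card * ((s * (2 * s + x) : ℕ) : ℝ)) := by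
    exact_mod_cast h0
  have h4 : (A : ℝ) / B.card ≤ (A' : ℝ) / (Bᶜ).card +
      ((((2 * T + 1) * (s + x) : ℕ) : ℝ) + ((s * (2 * s + x) : ℕ) : ℝ)) / B.card *
        (Cl X σ₀).card := by
    have h5 : (A : ℝ) / B.card ≤ (A' : ℝ) / (Bᶜ).card +
        (((2 * T + 1) * (s + x) : ℕ) : ℝ) / B.card * (Cl X σ₀).card +
        ((s * (2 * s + x) : ℕ) : ℝ) / (Bᶜ).card * (Cl X σ₀).card := by
      have h6 : (A' : ℝ) / (Bᶜ).card +
        (((2 * T + 1) * (s + x) : ℕ) : ℝ) / B.card * (Cl X σ₀).card +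
        ((s * (2 * s + x) : ℕ) : ℝ) / (Bᶜ).card * (Cl X σ₀).card = (A' * B.card +
      ((Bᶜ).card * ((((2 * T + 1) * (s + x) : ℕ) : ℝ) * (Cl X σ₀).card) +
        (Cl X σ₀).card * B.card * ((s * (2 * s + x) : ℕ) : ℝ))) / (B.card * (Bᶜ).card) := by
        field_simp
        ring
      rw [h6, div_le_div_iff₀ hb (mul_pos hb hb')]
      nlinarith [h3, hb]
    have h7 : ((s * (2 * s + x) : ℕ) : ℝ) / (Bᶜ).card * (Cl X σ₀).card ≤
        ((s * (2 * s + x) : ℕ) : ℝ) / B.card * (Cl X σ₀).card := by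
      apply mul_le_mul_of_nonneg_right _ (Nat.cast_nonneg _)
      exact div_le_div_of_nonneg_left (Nat.cast_nonneg _) hb hle
    rw [add_div, add_mul]
    linarith
  rw [h2, Nat.cast_add]
  linarith

/-- classes: a bound on the classes of labellings with the same run gives a bound on the sum over all
labellings with a given answer -/
theorem fiber (R : Alg K) (X : Finset K) (σ₀ : Equiv.Perm K) (T : ℕ) (z : K) (b : Bool)
    (h : Equiv.Perm K → ℝ) (c : ℝ)
    (hc : ∀ σ₁ ∈ Cl X σ₀, ∑ σ ∈ Cl (X ∪ tch R σ₁ z T) σ₁, h σ ≤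
      c * (Cl (X ∪ tch R σ₁ z T) σ₁).card) :
    ∑ σ ∈ Cl X σ₀, h σ * ind R T z b σ ≤ c * ∑ σ ∈ Cl X σ₀, ind R T z b σ := by
  set P := (Cl X σ₀).filter fun σ => run R σ T z = b with hP
  have e1 : ∑ σ ∈ Cl X σ₀, h σ * ind R T z b σ = ∑ σ ∈ P, h σ := by
    rw [hP, Finset.sum_filter]
    refine Finset.sum_congr rfl fun σ _ => ?_
    unfold ind
    split_ifs <;> simp
  have e2 : ∑ σ ∈ Cl X σ₀, ind R T z b σ = P.card := by
    unfold ind
    rw [Finset.sum_boole]
  rw [e1, e2]
  let key : Equiv.Perm K → Finset K × (K → K) := fun σ =>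
    (tch R σ z T, fun x => if x ∈ tch R σ z T then σ x else 0)
  have hfib : ∀ σ₁ ∈ P, (P.filter fun σ => key σ = key σ₁) = Cl (X ∪ tch R σ₁ z T) σ₁ := by
    intro σ₁ h₁
    rw [hP, Finset.mem_filter, mem_Cl] at h₁
    ext σ
    rw [Finset.mem_filter, hP, Finset.mem_filter, mem_Cl, mem_Cl]
    constructor
    · rintro ⟨⟨h2, -⟩, h3⟩ x hx
      rcases Finset.mem_union.mp hx with hx | hx
      · rw [h2 x hx, h₁.1 x hx]
      · have h4 : tch R σ z T = tch R σ₁ z T := congrArg Prod.fst h3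
        have h5 := congrFun (congrArg Prod.snd h3) x
        simp only [key] at h5
        rw [h4, if_pos hx, if_pos hx] at h5
        exact h5
    · intro h2
      have h3 : ∀ x ∈ tch R σ₁ z T, σ x = σ₁ x := fun x hx =>
        h2 x (Finset.mem_union_right _ hx)
      have h4 := (locality T h3).2.2
      refine ⟨⟨fun x hx => ?_, ?_⟩, ?_⟩
      · rw [h2 x (Finset.mem_union_left _ hx), h₁.1 x hx]
      · rw [run_local h3]
        exact h₁.2
      · simp only [key, h4, Prod.mk.injEq, true_and]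
        funext x
        split_ifs with hx
        · exact h3 x hx
        · rfl
  have h1 : ∑ σ ∈ P, h σ = ∑ k ∈ P.image key, ∑ σ ∈ P.filter (fun σ => key σ = k), h σ :=
    (Finset.sum_fiberwise_of_maps_to (fun σ hσ => Finset.mem_image_of_mem key hσ) h).symm
  have h2 : (P.card : ℝ) = ∑ k ∈ P.image key, ((P.filter (fun σ => key σ = k)).card : ℝ) := by
    rw [Finset.card_eq_sum_card_fiberwise (f := key) (t := P.image key)
      (fun σ hσ => Finset.mem_image_of_mem key hσ)]
    push_cast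
    rfl
  rw [h1, h2, Finset.mul_sum]
  refine Finset.sum_le_sum fun k hk => ?_
  obtain ⟨σ₁, h₁, rfl⟩ := Finset.mem_image.mp hk
  rw [hfib σ₁ h₁]
  exact hc σ₁ (Finset.mem_filter.mp h₁).1

/-- all moments -/
theorem moment (R : Alg K) (T s M : ℕ) (hs : 3 * T + 1 ≤ s) (B : Finset K) (hB : 0 < B.card)
    (hB' : B.card ≤ (Bᶜ).card) (hq : 2 * (s * s * (M + 1)) ≤ Fintype.card K) (m : ℕ) :
    ∀ (X : Finset K) (σ₀ : Equiv.Perm K), X.card + m * s ≤ M * s →
      ∑ σ ∈ Cl X σ₀, hit R σ T B ^ m ≤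
        ((1 + ((s * s * (2 * M + 1) : ℕ) : ℝ) / B.card) / 2) ^ m * (Cl X σ₀).card := by
  set ρ : ℝ := (1 + ((s * s * (2 * M + 1) : ℕ) : ℝ) / B.card) / 2 with hρ
  have hρ0 : 0 ≤ ρ := by positivity
  induction m with
  | zero =>
    intro X σ₀ _
    simp
  | succ m ih =>
    intro X σ₀ hX
    have hX1 : X.card ≤ (M - 1) * s := by
      have hM : 1 ≤ M := by
        by_contra hc
        have hM0 : M = 0 := by omega
        rw [hM0] at hX
        have : 1 ≤ s := by omega
        have : 1 ≤ (m + 1) * s := Nat.mul_pos (Nat.succ_pos m) this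
        omega
      have h1 : X.card + s ≤ M * s := by
        have : s ≤ (m + 1) * s := Nat.le_mul_of_pos_left s (Nat.succ_pos m)
        omega
      rw [Nat.sub_mul, one_mul]
      omega
    have hM : 1 ≤ M := by
      by_contra hc
      have hM0 : M = 0 := by omega
      rw [hM0] at hX
      have : 1 ≤ s := by omega
      have : 1 ≤ (m + 1) * s := Nat.mul_pos (Nat.succ_pos m) this
      omega
    obtain ⟨M', rfl⟩ : ∃ M', M = M' + 1 := ⟨M - 1, by omega⟩
    have hX2 : X.card ≤ M' * s := by simpa using hX1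
    -- first moment
    have hfirst : ∑ σ ∈ Cl X σ₀, hit R σ T B ≤ ρ * (Cl X σ₀).card := by
      refine (hit_sum R X σ₀ T s (M' * s) hs hX2 ?_ B hB hB').trans ?_
      · calc 2 * (s * (2 * s + M' * s)) = 2 * (s * s * (M' + 1 + 1)) := by ring
          _ ≤ _ := hq
      · apply mul_le_mul_of_nonneg_right _ (Nat.cast_nonneg _)
        rw [hρ]
        have h1 : ((2 * T + 1) * (s + M' * s) + s * (2 * s + M' * s) : ℕ) ≤
            s * s * (2 * (M' + 1) + 1) := by
          calc _ ≤ s * (s + M' * s) + s * (2 * s + M' * s) :=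
                Nat.add_le_add_right (Nat.mul_le_mul_right _ (by omega)) _
            _ = s * s * (2 * (M' + 1) + 1) := by ring
        have h2 : (((2 * T + 1) * (s + M' * s) + s * (2 * s + M' * s) : ℕ) : ℝ) / B.card ≤
            ((s * s * (2 * (M' + 1) + 1) : ℕ) : ℝ) / B.card := by
          apply div_le_div_of_nonneg_right _ (Nat.cast_nonneg _)
          exact_mod_cast h1
        linarith
    -- classes
    have hcl : ∀ (z : K) (b : Bool), ∑ σ ∈ Cl X σ₀, hit R σ T B ^ m * ind R T z b σ ≤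
        ρ ^ m * ∑ σ ∈ Cl X σ₀, ind R T z b σ := by
      intro z b
      refine fiber R X σ₀ T z b (fun σ => hit R σ T B ^ m) (ρ ^ m) fun σ₁ _ => ?_
      apply ih
      have h1 := Finset.card_union_le X (tch R σ₁ z T)
      have h2 := (card_tch R σ₁ z T).trans hs
      have h3 : (m + 1) * s = m * s + s := by ring
      omega
    have hsum : ∀ (f : Equiv.Perm K → ℝ), ∑ σ ∈ Cl X σ₀, f σ * hit R σ T B =
        ((∑ z ∈ B, ∑ σ ∈ Cl X σ₀, f σ * ind R T z true σ) / B.card +
          (∑ z ∈ Bᶜ, ∑ σ ∈ Cl X σ₀, f σ * ind R T z false σ) / (Bᶜ).card) / 2 := by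
      intro f
      rw [Finset.sum_comm (s := B), Finset.sum_comm (s := Bᶜ), Finset.sum_div, Finset.sum_div,
        ← Finset.sum_add_distrib, Finset.sum_div]
      refine Finset.sum_congr rfl fun σ _ => ?_
      rw [hit_eq, ← Finset.mul_sum, ← Finset.mul_sum]
      ring
    calc ∑ σ ∈ Cl X σ₀, hit R σ T B ^ (m + 1)
        = ∑ σ ∈ Cl X σ₀, hit R σ T B ^ m * hit R σ T B :=
          Finset.sum_congr rfl fun σ _ => pow_succ _ _
      _ ≤ ρ ^ m * ∑ σ ∈ Cl X σ₀, hit R σ T B := by
          rw [hsum]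
          have h1 : ∑ σ ∈ Cl X σ₀, hit R σ T B = ∑ σ ∈ Cl X σ₀, (1 : ℝ) * hit R σ T B :=
            Finset.sum_congr rfl fun σ _ => (one_mul _).symm
          rw [h1, hsum, mul_div_assoc', mul_add, mul_div_assoc', mul_div_assoc', Finset.mul_sum,
            Finset.mul_sum]
          have h2 : ∀ (A : Finset K) (b : Bool),
              ∑ z ∈ A, ∑ σ ∈ Cl X σ₀, hit R σ T B ^ m * ind R T z b σ ≤
              ∑ z ∈ A, ρ ^ m * ∑ σ ∈ Cl X σ₀, (1 : ℝ) * ind R T z b σ := by
            intro A b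
            refine Finset.sum_le_sum fun z _ => ?_
            simp only [one_mul]
            exact hcl z b
          have h3 := h2 B true
          have h4 := h2 Bᶜ false
          gcongr
      _ ≤ ρ ^ m * (ρ * (Cl X σ₀).card) := by
          apply mul_le_mul_of_nonneg_left hfirst (pow_nonneg hρ0 m)
      _ = ρ ^ (m + 1) * (Cl X σ₀).card := by ring

end GGM3
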