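import Pool.Agent.H.MP_0427c5_lc.Main

/-!
# Generic group 3SUM-Indexing: sets of integers with many sums
-/

namespace GGM3

open Finset

/-- the set of the sums of two elements of `A` modulo `p` -/
def sums (p : ℕ) (A : Finset ℕ) : Finset (ZMod p) :=
  (A ×ˢ A).image fun q => ((q.1 + q.2 : ℕ) : ZMod p)

theorem sums_card_le {p : ℕ} {A : Finset ℕ} (n : ℕ) (hA : A.card = n) (hn : 1 ≤ n)
    (hp : 2 * n ^ 3 ≤ p) : 2 * (sums p A).card ≤ p := by
  have h1 : (sums p A).card ≤ n * n := by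
    refine Finset.card_image_le.trans ?_
    rw [Finset.card_product, hA]
  have h2 : n * n ≤ n ^ 3 := by
    calc n * n = n ^ 2 := by ring
      _ ≤ n ^ 3 := Nat.pow_le_pow_right hn (by norm_num)
  omega

theorem sums_card_ge {p : ℕ} [NeZero p] {A : Finset ℕ} (n : ℕ) (hA : A.card = n)
    (hlt : ∀ a ∈ A, 2 * a < p)
    (hS : ∀ a ∈ A, ∀ b ∈ A, ∀ c ∈ A, ∀ d ∈ A, a + b = c + d →
      (a = c ∧ b = d) ∨ (a = d ∧ b = c)) : n ^ 2 ≤ 2 * (sums p A).card := by
  have h := Finset.card_le_mul_card_image (s := A ×ˢ A)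
    (f := fun q => ((q.1 + q.2 : ℕ) : ZMod p)) 2 ?_
  · rw [Finset.card_product, hA] at h
    calc n ^ 2 = n * n := by ring
      _ ≤ _ := h
  · intro x hx
    obtain ⟨q, hq, rfl⟩ := Finset.mem_image.mp hx
    rw [Finset.mem_product] at hq
    have hsub : ((A ×ˢ A).filter fun r => ((r.1 + r.2 : ℕ) : ZMod p) = ((q.1 + q.2 : ℕ) : ZMod p)) ⊆
        {q, (q.2, q.1)} := by
      intro r hr
      rw [Finset.mem_filter, Finset.mem_product] at hr
      have h1 : r.1 + r.2 = q.1 + q.2 := by
        have h2 := congrArg ZMod.val hr.2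
        rw [ZMod.val_natCast_of_lt, ZMod.val_natCast_of_lt] at h2
        · exact h2
        · have := hlt q.1 hq.1
          have := hlt q.2 hq.2
          omega
        · have := hlt r.1 hr.1.1
          have := hlt r.2 hr.1.2
          omega
      rw [Finset.mem_insert, Finset.mem_singleton]
      rcases hS r.1 hr.1.1 r.2 hr.1.2 q.1 hq.1 q.2 hq.2 h1 with h3 | h3
      · exact Or.inl (Prod.ext h3.1 h3.2)
      · exact Or.inr (Prod.ext h3.1 h3.2)
    exact (Finset.card_le_card hsub).trans Finset.card_le_two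

end GGM3
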