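import Pool.Agent.H.MP_0427c5_lc.Defs

/-!
# Generic group 3SUM-Indexing: affine forms and the exchange permutation
-/

namespace GGM3

variable {K : Type} [Field K]

/-- value of the affine form `c X + e` -/
def ev (f : K × K) (z : K) : K := f.1 * z + f.2

variable [DecidableEq K]

/-- the set of nonconstant forms of `L` -/
def nc (L : Finset (K × K)) : Finset (K × K) := L.filter fun f => f.1 ≠ 0

/-- the constants of `L` together with `X` -/
def cs (L : Finset (K × K)) (X : Finset K) : Finset K :=
  (L.filter fun f => f.1 = 0).image (fun f => f.2) ∪ X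

/-- the evaluation at `z` is injective on the nonconstant forms and avoids the constants and `X` -/
def Zok (L : Finset (K × K)) (X : Finset K) (z : K) : Prop :=
  (∀ f ∈ nc L, ∀ g ∈ nc L, ev f z = ev g z → f = g) ∧ ∀ f ∈ nc L, ev f z ∉ cs L X

/-- `z` and `y` are in general position with respect to `L` and `X` -/
def Good (L : Finset (K × K)) (X : Finset K) (z y : K) : Prop :=
  Zok L X z ∧ Zok L X y ∧ ∀ f ∈ nc L, ∀ g ∈ nc L, ev f z ≠ ev g y

theorem Good.symm {L : Finset (K × K)} {X : Finset K} {z y : K} (h : Good L X z y) :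
    Good L X y z := ⟨h.2.1, h.1, fun f hf g hg e => h.2.2 g hg f hf e.symm⟩

/-- the product of the transpositions `ev f z ↔ ev f y` over a list of forms -/
def swl (l : List (K × K)) (z y : K) : Equiv.Perm K :=
  (l.map fun f => Equiv.swap (ev f z) (ev f y)).prod

theorem swl_symm (l : List (K × K)) (z y : K) : swl l z y = swl l y z := by
  unfold swl
  congr 1
  refine List.map_congr_left fun f _ => Equiv.swap_comm _ _

theorem swl_fix (l : List (K × K)) (z y x : K) (h : ∀ f ∈ l, ev f z ≠ x ∧ ev f y ≠ x) :
    swl l z y x = x := by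
  induction l with
  | nil => simp [swl]
  | cons f l ih =>
    have h1 := ih fun g hg => h g (List.mem_cons_of_mem _ hg)
    have h2 := h f List.mem_cons_self
    have : swl (f :: l) z y x = Equiv.swap (ev f z) (ev f y) (swl l z y x) := by
      simp [swl]
    rw [this, h1, Equiv.swap_apply_of_ne_of_ne h2.1.symm h2.2.symm]

theorem swl_apply (l : List (K × K)) (z y : K) (hl : l.Nodup)
    (h1 : ∀ f ∈ l, ∀ g ∈ l, ev f z = ev g z → f = g)
    (h2 : ∀ f ∈ l, ∀ g ∈ l, ev f y = ev g y → f = g)
    (h3 : ∀ f ∈ l, ∀ g ∈ l, ev f z ≠ ev g y) (f : K × K) (hf : f ∈ l) :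
    swl l z y (ev f z) = ev f y := by
  induction l with
  | nil => simp at hf
  | cons g l ih =>
    have e : swl (g :: l) z y (ev f z) = Equiv.swap (ev g z) (ev g y) (swl l z y (ev f z)) := by
      simp [swl]
    rw [List.nodup_cons] at hl
    rcases List.mem_cons.mp hf with rfl | hfl
    · rw [e, swl_fix l z y (ev f z), Equiv.swap_apply_left]
      intro k hk
      have hk' := List.mem_cons_of_mem f hk
      refine ⟨fun hc => hl.1 ?_, fun hc => h3 f hf k hk' hc.symm⟩
      rw [h1 f hf k hk' hc.symm]
      exact hk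
    · have hne : f ≠ g := fun hc => hl.1 (hc ▸ hfl)
      rw [e, ih hl.2 (fun a ha b hb => h1 a (List.mem_cons_of_mem _ ha) b (List.mem_cons_of_mem _ hb))
        (fun a ha b hb => h2 a (List.mem_cons_of_mem _ ha) b (List.mem_cons_of_mem _ hb))
        (fun a ha b hb => h3 a (List.mem_cons_of_mem _ ha) b (List.mem_cons_of_mem _ hb)) hfl]
      refine Equiv.swap_apply_of_ne_of_ne (fun hc => h3 g List.mem_cons_self f hf hc.symm)
        fun hc => hne (h2 f hf g List.mem_cons_self hc)

/-- the exchange permutation -/
noncomputable def sw (L : Finset (K × K)) (z y : K) : Equiv.Perm K := swl (nc L).toList z y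

theorem sw_symm (L : Finset (K × K)) (z y : K) : sw L z y = sw L y z := swl_symm _ _ _

theorem sw_apply_left {L : Finset (K × K)} {X : Finset K} {z y : K} (h : Good L X z y) {f : K × K}
    (hf : f ∈ nc L) : sw L z y (ev f z) = ev f y := by
  refine swl_apply _ z y (Finset.nodup_toList _) ?_ ?_ ?_ f (Finset.mem_toList.mpr hf)
  · intro f hf g hg
    exact h.1.1 f (Finset.mem_toList.mp hf) g (Finset.mem_toList.mp hg)
  · intro f hf g hg
    exact h.2.1.1 f (Finset.mem_toList.mp hf) g (Finset.mem_toList.mp hg)
  · intro f hf g hg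
    exact h.2.2 f (Finset.mem_toList.mp hf) g (Finset.mem_toList.mp hg)

theorem sw_apply_right {L : Finset (K × K)} {X : Finset K} {z y : K} (h : Good L X z y) {f : K × K}
    (hf : f ∈ nc L) : sw L z y (ev f y) = ev f z := by
  rw [sw_symm]
  exact sw_apply_left h.symm hf

theorem sw_fix {L : Finset (K × K)} {z y x : K} (h : ∀ f ∈ nc L, ev f z ≠ x ∧ ev f y ≠ x) :
    sw L z y x = x := by
  refine swl_fix _ z y x fun f hf => h f (Finset.mem_toList.mp hf)

theorem sw_const {L : Finset (K × K)} {X : Finset K} {z y x : K} (h : Good L X z y)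
    (hx : x ∈ cs L X) : sw L z y x = x := by
  refine sw_fix fun f hf => ⟨fun e => h.1.2 f hf (e ▸ hx), fun e => h.2.1.2 f hf (e ▸ hx)⟩

theorem sw_mul_self {L : Finset (K × K)} {X : Finset K} {z y : K} (h : Good L X z y) :
    sw L z y * sw L z y = 1 := by
  ext x
  simp only [Equiv.Perm.coe_mul, Function.comp_apply, Equiv.Perm.coe_one, id_eq]
  by_cases h1 : ∃ f ∈ nc L, ev f z = x
  · obtain ⟨f, hf, rfl⟩ := h1
    rw [sw_apply_left h hf, sw_apply_right h hf]
  by_cases h2 : ∃ f ∈ nc L, ev f y = x
  · obtain ⟨f, hf, rfl⟩ := h2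
    rw [sw_apply_right h hf, sw_apply_left h hf]
  · have h3 : sw L z y x = x :=
      sw_fix fun f hf => ⟨fun e => h1 ⟨f, hf, e⟩, fun e => h2 ⟨f, hf, e⟩⟩
    rw [h3, h3]

variable [Fintype K]

open scoped Classical in
/-- number of `y` in bad position -/
theorem card_not_good {L : Finset (K × K)} {X : Finset K} {z : K} (hz : Zok L X z) :
    (Finset.univ.filter fun y => ¬ Good L X z y).card ≤ L.card * (2 * L.card + X.card) := by
  -- the bad `y`: `ev f y = ev g y`, `f ≠ g`, or `ev f y = x` with `x` a constant or `x = ev g z`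
  set V : Finset K := cs L X ∪ (nc L).image (fun g => ev g z) with hV
  have hVc : V.card ≤ L.card + X.card := by
    have h1 : (cs L X).card ≤ (L.filter fun f => f.1 = 0).card + X.card :=
      (Finset.card_union_le _ _).trans (Nat.add_le_add_right Finset.card_image_le _)
    have h2 : ((nc L).image (fun g => ev g z)).card ≤ (nc L).card := Finset.card_image_le
    have h3 : (L.filter fun f => f.1 = 0).card + (nc L).card = L.card := by
      unfold nc
      exact Finset.card_filter_add_card_filter_not _
    have h4 : V.card ≤ (cs L X).card + ((nc L).image (fun g => ev g z)).card :=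
      Finset.card_union_le _ _
    omega
  have hnc : (nc L).card ≤ L.card := Finset.card_filter_le _ _
  have hsub : (Finset.univ.filter fun y => ¬ Good L X z y) ⊆
      ((nc L) ×ˢ (nc L)).image (fun q => (q.2.2 - q.1.2) / (q.1.1 - q.2.1)) ∪
      ((nc L) ×ˢ V).image (fun q => (q.2 - q.1.2) / q.1.1) := by
    intro y hy
    rw [Finset.mem_filter] at hy
    have hy := hy.2
    by_contra hc
    rw [Finset.mem_union, not_or] at hc
    apply hy
    have hC : ∀ f ∈ nc L, ev f y ∉ V := by
      intro f hf hv
      apply hc.2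
      rw [Finset.mem_image]
      refine ⟨(f, ev f y), Finset.mem_product.mpr ⟨hf, hv⟩, ?_⟩
      have hf0 : f.1 ≠ 0 := (Finset.mem_filter.mp hf).2
      simp only [ev]
      field_simp
      ring
    refine ⟨hz, ⟨?_, ?_⟩, ?_⟩
    · intro f hf g hg e
      by_contra hne
      apply hc.1
      rw [Finset.mem_image]
      refine ⟨(f, g), Finset.mem_product.mpr ⟨hf, hg⟩, ?_⟩
      have h1 : f.1 - g.1 ≠ 0 := by
        intro h0
        have h0' : f.1 = g.1 := sub_eq_zero.mp h0
        apply hne
        refine Prod.ext h0' ?_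
        simp only [ev, h0'] at e
        exact add_left_cancel e
      simp only [ev] at e
      rw [div_eq_iff h1]
      linear_combination -e
    · intro f hf hv
      exact hC f hf (Finset.mem_union_left _ hv)
    · intro f hf g hg e
      exact hC g hg (Finset.mem_union_right _ (Finset.mem_image.mpr ⟨f, hf, e⟩))
  refine (Finset.card_le_card hsub).trans ?_
  refine (Finset.card_union_le _ _).trans ?_
  have h1 : (((nc L) ×ˢ (nc L)).image (fun q => (q.2.2 - q.1.2) / (q.1.1 - q.2.1))).card ≤
      L.card * L.card := by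
    refine Finset.card_image_le.trans ?_
    rw [Finset.card_product]
    exact Nat.mul_le_mul hnc hnc
  have h2 : (((nc L) ×ˢ V).image (fun q => (q.2 - q.1.2) / q.1.1)).card ≤
      L.card * (L.card + X.card) := by
    refine Finset.card_image_le.trans ?_
    rw [Finset.card_product]
    exact Nat.mul_le_mul hnc hVc
  calc _ ≤ L.card * L.card + L.card * (L.card + X.card) := Nat.add_le_add h1 h2
    _ = L.card * (2 * L.card + X.card) := by ring

end GGM3
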