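import Pool.Agent.H.MP_0427c5_lc.Swap

/-!
# Generic group 3SUM-Indexing: symbolic run, locality and transport
-/

namespace GGM3

variable {K : Type} [Field K] [DecidableEq K]

/-- find the form of a label in a list of labels with forms -/
def fnd : List (K × (K × K)) → K → Option (K × K)
  | [], _ => none
  | q :: L, u => if q.1 = u then some q.2 else fnd L u

theorem fnd_some {L : List (K × (K × K))} {u : K} {f : K × K} (h : fnd L u = some f) :
    (u, f) ∈ L := by
  induction L with
  | nil => simp [fnd] at h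
  | cons q L ih =>
    unfold fnd at h
    split_ifs at h with h1
    · have h2 : q.2 = f := by simpa using h
      have : (u, f) = q := Prod.ext h1.symm h2.symm
      rw [this]
      exact List.mem_cons_self
    · exact List.mem_cons_of_mem _ (ih h)

theorem fnd_none {L : List (K × (K × K))} {u : K} {f : K × K} (h : fnd L u = none) :
    (u, f) ∉ L := by
  induction L with
  | nil => simp
  | cons q L ih =>
    unfold fnd at h
    split_ifs at h with h1
    intro hc
    rcases List.mem_cons.mp hc with hc | hc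
    · exact h1 (by rw [← hc])
    · exact ih h hc

/-- the form of a label -/
def lk (σ : Equiv.Perm K) (L : List (K × (K × K))) (u : K) : K × K :=
  (fnd L u).getD (0, σ.symm u)

/-- labels received, labels with forms -/
def st (R : Alg K) (σ : Equiv.Perm K) (z : K) : ℕ → List K × List (K × (K × K))
  | 0 => ([], [(σ z, (1, 0))])
  | t + 1 =>
    let s := st R σ z t
    let o := R.next (σ z) s.1
    let fu := lk σ s.2 o.u
    let fv := lk σ s.2 o.v
    let g : K × K := (o.c * fu.1 + o.d * fv.1, o.c * fu.2 + o.d * fv.2 + o.e)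
    (σ (ev g z) :: s.1, (σ (ev g z), g) :: (o.v, fv) :: (o.u, fu) :: s.2)

/-- the next call -/
def cl (R : Alg K) (σ : Equiv.Perm K) (z : K) (t : ℕ) : Call K := R.next (σ z) (st R σ z t).1

/-- the form of its first label -/
def fu (R : Alg K) (σ : Equiv.Perm K) (z : K) (t : ℕ) : K × K :=
  lk σ (st R σ z t).2 (cl R σ z t).u

/-- the form of its second label -/
def fv (R : Alg K) (σ : Equiv.Perm K) (z : K) (t : ℕ) : K × K :=
  lk σ (st R σ z t).2 (cl R σ z t).v

/-- the form of the reply -/
def gg (R : Alg K) (σ : Equiv.Perm K) (z : K) (t : ℕ) : K × K :=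
  ((cl R σ z t).c * (fu R σ z t).1 + (cl R σ z t).d * (fv R σ z t).1,
    (cl R σ z t).c * (fu R σ z t).2 + (cl R σ z t).d * (fv R σ z t).2 + (cl R σ z t).e)

theorem st_succ (R : Alg K) (σ : Equiv.Perm K) (z : K) (t : ℕ) :
    st R σ z (t + 1) = (σ (ev (gg R σ z t) z) :: (st R σ z t).1,
      (σ (ev (gg R σ z t) z), gg R σ z t) :: ((cl R σ z t).v, fv R σ z t) ::
        ((cl R σ z t).u, fu R σ z t) :: (st R σ z t).2) := rfl

/-- forms after `t` calls -/
def Fs (R : Alg K) (σ : Equiv.Perm K) (z : K) (t : ℕ) : Finset (K × K) :=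
  ((st R σ z t).2.map Prod.snd).toFinset

/-- forms before the reply to call `t + 1` -/
def Hs (R : Alg K) (σ : Equiv.Perm K) (z : K) (t : ℕ) : Finset (K × K) :=
  insert (fv R σ z t) (insert (fu R σ z t) (Fs R σ z t))

theorem Fs_succ (R : Alg K) (σ : Equiv.Perm K) (z : K) (t : ℕ) :
    Fs R σ z (t + 1) = insert (gg R σ z t) (Hs R σ z t) := by
  unfold Fs Hs
  rw [st_succ]
  simp [Fs]

theorem Fs_zero (R : Alg K) (σ : Equiv.Perm K) (z : K) : Fs R σ z 0 = {(1, 0)} := by
  simp [Fs, st]

theorem card_Fs (R : Alg K) (σ : Equiv.Perm K) (z : K) (t : ℕ) :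
    (Fs R σ z t).card ≤ 3 * t + 1 := by
  induction t with
  | zero => simp [Fs_zero]
  | succ t ih =>
    rw [Fs_succ]
    have h1 := Finset.card_insert_le (gg R σ z t) (Hs R σ z t)
    have h2 := Finset.card_insert_le (fv R σ z t) (insert (fu R σ z t) (Fs R σ z t))
    have h3 := Finset.card_insert_le (fu R σ z t) (Fs R σ z t)
    unfold Hs at h1 ⊢
    omega

theorem card_Hs (R : Alg K) (σ : Equiv.Perm K) (z : K) (t : ℕ) :
    (Hs R σ z t).card ≤ 3 * t + 3 := by
  have h1 := card_Fs R σ z t
  have h2 := Finset.card_insert_le (fv R σ z t) (insert (fu R σ z t) (Fs R σ z t))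
  have h3 := Finset.card_insert_le (fu R σ z t) (Fs R σ z t)
  unfold Hs
  omega

theorem Fs_sub_Hs (R : Alg K) (σ : Equiv.Perm K) (z : K) (t : ℕ) :
    Fs R σ z t ⊆ Hs R σ z t := by
  unfold Hs
  exact (Finset.subset_insert _ _).trans (Finset.subset_insert _ _)

theorem Hs_sub_Fs (R : Alg K) (σ : Equiv.Perm K) (z : K) (t : ℕ) :
    Hs R σ z t ⊆ Fs R σ z (t + 1) := by
  rw [Fs_succ]
  exact Finset.subset_insert _ _

theorem Fs_mono (R : Alg K) (σ : Equiv.Perm K) (z : K) {k t : ℕ} (h : k ≤ t) :
    Fs R σ z k ⊆ Fs R σ z t := by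
  induction t, h using Nat.le_induction with
  | base => exact Finset.Subset.refl _
  | succ t _ ih => exact ih.trans ((Fs_sub_Hs R σ z t).trans (Hs_sub_Fs R σ z t))

theorem mem_Fs {R : Alg K} {σ : Equiv.Perm K} {z : K} {t : ℕ} {f : K × K} :
    f ∈ Fs R σ z t ↔ ∃ u, (u, f) ∈ (st R σ z t).2 := by
  simp [Fs]

/-- each label is the label of the value of its form -/
def Inv (σ : Equiv.Perm K) (z : K) (L : List (K × (K × K))) : Prop :=
  ∀ u f, (u, f) ∈ L → σ (ev f z) = u

theorem ev_lk {σ : Equiv.Perm K} {z : K} {L : List (K × (K × K))} (h : Inv σ z L) (u : K) :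
    ev (lk σ L u) z = σ.symm u := by
  unfold lk
  rcases hf : fnd L u with _ | f
  · simp [ev]
  · have := h u f (fnd_some hf)
    simp only [Option.getD_some]
    rw [← this, Equiv.symm_apply_apply]

theorem inv_st (R : Alg K) (σ : Equiv.Perm K) (z : K) (t : ℕ) : Inv σ z (st R σ z t).2 := by
  induction t with
  | zero =>
    intro u f h
    have : (u, f) = (σ z, (1, 0)) := by simpa [st] using h
    obtain ⟨rfl, rfl⟩ := Prod.ext_iff.mp this
    simp [ev]
  | succ t ih =>
    intro u f h
    rw [st_succ] at h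
    rcases List.mem_cons.mp h with h | h
    · obtain ⟨rfl, rfl⟩ := Prod.ext_iff.mp h
      rfl
    rcases List.mem_cons.mp h with h | h
    · obtain ⟨rfl, rfl⟩ := Prod.ext_iff.mp h
      simp only [fv]
      rw [ev_lk ih, Equiv.apply_symm_apply]
    rcases List.mem_cons.mp h with h | h
    · obtain ⟨rfl, rfl⟩ := Prod.ext_iff.mp h
      simp only [fu]
      rw [ev_lk ih, Equiv.apply_symm_apply]
    · exact ih u f h

theorem st_fst (R : Alg K) (σ : Equiv.Perm K) (z : K) (t : ℕ) :
    (st R σ z t).1 = answers R σ (σ z) t := by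
  induction t with
  | zero => rfl
  | succ t ih =>
    rw [st_succ, answers]
    simp only
    rw [← ih]
    congr 1
    have h1 : ev (fu R σ z t) z = σ.symm (cl R σ z t).u := ev_lk (inv_st R σ z t) _
    have h2 : ev (fv R σ z t) z = σ.symm (cl R σ z t).v := ev_lk (inv_st R σ z t) _
    unfold reply
    congr 1
    change ev (gg R σ z t) z = (cl R σ z t).c * σ.symm (cl R σ z t).u +
      (cl R σ z t).d * σ.symm (cl R σ z t).v + (cl R σ z t).e
    rw [← h1, ← h2]
    simp only [gg, ev]
    ring

/-- a form found by `lk` is in the list or it is the constant form of an unknown label -/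
theorem lk_cases {σ : Equiv.Perm K} {L : List (K × (K × K))} (u : K) :
    (u, lk σ L u) ∈ L ∨ (lk σ L u = (0, σ.symm u) ∧ ∀ f, (u, f) ∉ L) := by
  unfold lk
  rcases hf : fnd L u with _ | f
  · exact Or.inr ⟨rfl, fun f => fnd_none hf⟩
  · exact Or.inl (fnd_some hf)

theorem zok_insert_const {L : Finset (K × K)} {X : Finset K} {z e : K} (h : Zok L X z)
    (he : ∀ f ∈ nc L, ev f z ≠ e) : Zok (insert (0, e) L) X z := by
  have hn : nc (insert (0, e) L) = nc L := by
    unfold nc
    rw [Finset.filter_insert]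
    simp
  refine ⟨fun f hf g hg => ?_, fun f hf hc => ?_⟩
  · rw [hn] at hf hg
    exact h.1 f hf g hg
  · rw [hn] at hf
    unfold cs at hc
    rw [Finset.mem_union, Finset.mem_image] at hc
    rcases hc with ⟨k, hk, hk2⟩ | hc
    · rw [Finset.mem_filter, Finset.mem_insert] at hk
      rcases hk with ⟨rfl | hk, hk0⟩
      · exact he f hf hk2.symm
      · apply h.2 f hf
        unfold cs
        rw [Finset.mem_union, Finset.mem_image]
        exact Or.inl ⟨k, Finset.mem_filter.mpr ⟨hk, hk0⟩, hk2⟩
    · apply h.2 f hf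
      unfold cs
      exact Finset.mem_union_right _ hc

theorem zok_Hs {R : Alg K} {σ : Equiv.Perm K} {z : K} {t : ℕ} {X : Finset K}
    (h : Zok (Fs R σ z t) X z) : Zok (Hs R σ z t) X z := by
  have key : ∀ u : K, ∀ L : Finset (K × K), Zok L X z → Fs R σ z t ⊆ L →
      (∀ f ∈ nc L, f ∈ Fs R σ z t) → Zok (insert (lk σ (st R σ z t).2 u) L) X z ∧
      (∀ f ∈ nc (insert (lk σ (st R σ z t).2 u) L), f ∈ Fs R σ z t) := by
    intro u L hL hsub hnc
    rcases lk_cases (σ := σ) (L := (st R σ z t).2) u with h1 | ⟨h1, h2⟩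
    · have h3 : lk σ (st R σ z t).2 u ∈ L := hsub (mem_Fs.mpr ⟨u, h1⟩)
      rw [Finset.insert_eq_of_mem h3]
      exact ⟨hL, hnc⟩
    · rw [h1]
      refine ⟨zok_insert_const hL fun f hf he => ?_, fun f hf => ?_⟩
      · obtain ⟨w, hw⟩ := mem_Fs.mp (hnc f hf)
        have h4 := inv_st R σ z t w f hw
        rw [he, Equiv.apply_symm_apply] at h4
        subst h4
        exact h2 f hw
      · unfold nc at hf
        rw [Finset.mem_filter, Finset.mem_insert] at hf
        rcases hf with ⟨rfl | hf, h0⟩
        · exact absurd rfl h0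
        · exact hnc f (Finset.mem_filter.mpr ⟨hf, h0⟩)
  have h1 := key (cl R σ z t).u (Fs R σ z t) h (Finset.Subset.refl _)
    fun f hf => (Finset.mem_filter.mp hf).1
  have h2 := key (cl R σ z t).v (insert (lk σ (st R σ z t).2 (cl R σ z t).u) (Fs R σ z t)) h1.1
    (Finset.subset_insert _ _) h1.2
  exact h2.1

/-- if adding the form `g` destroys general position then `g` collides with a known form -/
theorem collide {L : Finset (K × K)} {X : Finset K} {z : K} {g : K × K} (h : Zok L X z)
    (hn : ¬ Zok (insert g L) X z) :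
    ∃ f ∈ L ∪ X.image (fun x => ((0 : K), x)), f.1 ≠ g.1 ∧ ev f z = ev g z := by
  by_contra hc
  have hc : ∀ f ∈ L ∪ X.image (fun x => ((0 : K), x)), ev f z = ev g z → f.1 = g.1 := by
    intro f hf he
    by_contra hne
    exact hc ⟨f, hf, hne, he⟩
  have hcl : ∀ f ∈ L, ev f z = ev g z → f = g := by
    intro f hf he
    have h1 := hc f (Finset.mem_union_left _ hf) he
    refine Prod.ext h1 ?_
    simp only [ev, h1] at he
    exact add_left_cancel he
  apply hn
  refine ⟨fun f hf k hk he => ?_, fun f hf hv => ?_⟩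
  · unfold nc at hf hk
    rw [Finset.mem_filter, Finset.mem_insert] at hf hk
    obtain ⟨hf, hf0⟩ := hf
    obtain ⟨hk, hk0⟩ := hk
    rcases hf with rfl | hf <;> rcases hk with rfl | hk
    · rfl
    · exact (hcl k hk he.symm).symm
    · exact hcl f hf he
    · exact h.1 f (Finset.mem_filter.mpr ⟨hf, hf0⟩) k (Finset.mem_filter.mpr ⟨hk, hk0⟩) he
  · unfold nc at hf
    rw [Finset.mem_filter, Finset.mem_insert] at hf
    obtain ⟨hf, hf0⟩ := hf
    unfold cs at hv
    rw [Finset.mem_union, Finset.mem_image] at hv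
    rcases hf with rfl | hf
    · rcases hv with ⟨k, hk, hk2⟩ | hv
      · rw [Finset.mem_filter, Finset.mem_insert] at hk
        obtain ⟨hk, hk0⟩ := hk
        rcases hk with rfl | hk
        · exact hf0 hk0
        · have h5 : ev k z = ev f z := by
            rw [← hk2]
            simp [ev, hk0]
          exact hf0 ((hc k (Finset.mem_union_left _ hk) h5).symm.trans hk0)
      · have h5 : ev ((0 : K), ev f z) z = ev f z := by simp [ev]
        exact hf0 (hc (0, ev f z)
          (Finset.mem_union_right _ (Finset.mem_image.mpr ⟨_, hv, rfl⟩)) h5).symm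
    · rcases hv with ⟨k, hk, hk2⟩ | hv
      · rw [Finset.mem_filter, Finset.mem_insert] at hk
        obtain ⟨hk, hk0⟩ := hk
        rcases hk with rfl | hk
        · have h5 : ev f z = ev k z := by
            rw [← hk2]
            simp [ev, hk0]
          exact hf0 ((hc f (Finset.mem_union_left _ hf) h5).trans hk0)
        · apply h.2 f (Finset.mem_filter.mpr ⟨hf, hf0⟩)
          unfold cs
          rw [Finset.mem_union, Finset.mem_image]
          exact Or.inl ⟨k, Finset.mem_filter.mpr ⟨hk, hk0⟩, hk2⟩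
      · apply h.2 f (Finset.mem_filter.mpr ⟨hf, hf0⟩)
        unfold cs
        exact Finset.mem_union_right _ hv

theorem root_eq {f g : K × K} {z : K} (h : f.1 ≠ g.1) (he : ev f z = ev g z) :
    z = (g.2 - f.2) / (f.1 - g.1) := by
  have h1 : f.1 - g.1 ≠ 0 := sub_ne_zero.mpr h
  rw [eq_div_iff h1]
  simp only [ev] at he
  linear_combination he

/-- transport of the lookup -/
theorem lk_transport {σ : Equiv.Perm K} {L : Finset (K × K)} {X : Finset K} {z y : K}
    (h : Good L X z y) {l : List (K × (K × K))} {u : K} (hu : lk σ l u ∈ L) :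
    lk (σ * sw L z y) l u = lk σ l u := by
  unfold lk at hu ⊢
  rcases hf : fnd l u with _ | f
  · rw [hf] at hu
    simp only [Option.getD_none] at hu ⊢
    congr 1
    rw [Equiv.symm_apply_eq]
    have h1 : sw L z y (σ.symm u) = σ.symm u := by
      apply sw_const h
      unfold cs
      rw [Finset.mem_union, Finset.mem_image]
      exact Or.inl ⟨(0, σ.symm u), Finset.mem_filter.mpr ⟨hu, rfl⟩, rfl⟩
    rw [Equiv.Perm.mul_apply, h1, Equiv.apply_symm_apply]
  · rfl

theorem ev_transport {σ : Equiv.Perm K} {L : Finset (K × K)} {X : Finset K} {z y : K}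
    (h : Good L X z y) {g : K × K} (hg : g ∈ L) :
    (σ * sw L z y) (ev g y) = σ (ev g z) := by
  rw [Equiv.Perm.mul_apply]
  by_cases h0 : g.1 = 0
  · have h1 : ev g y = g.2 := by simp [ev, h0]
    have h2 : ev g z = g.2 := by simp [ev, h0]
    rw [h1, h2, sw_const h]
    unfold cs
    rw [Finset.mem_union, Finset.mem_image]
    exact Or.inl ⟨g, Finset.mem_filter.mpr ⟨hg, h0⟩, rfl⟩
  · rw [sw_apply_right h (Finset.mem_filter.mpr ⟨hg, h0⟩)]

/-- transport of the run: exchanging `z` and `y` together with the labels -/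
theorem transport {R : Alg K} {σ : Equiv.Perm K} {z y : K} {L : Finset (K × K)} {X : Finset K}
    (h : Good L X z y) (t : ℕ) (hL : Fs R σ z t ⊆ L) :
    (σ * sw L z y) y = σ z ∧ st R (σ * sw L z y) y t = st R σ z t := by
  have h0 : (σ * sw L z y) y = σ z := by
    have h1 : ((1 : K), (0 : K)) ∈ L := by
      apply hL
      apply Fs_mono R σ z (Nat.zero_le t)
      rw [Fs_zero]
      exact Finset.mem_singleton_self _
    have h2 := ev_transport (σ := σ) h h1
    simpa [ev] using h2
  refine ⟨h0, ?_⟩
  induction t with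
  | zero => simp only [st, h0]
  | succ t ih =>
    have ih := ih ((Fs_mono R σ z (Nat.le_succ t)).trans hL)
    have hH : Hs R σ z t ⊆ L := (Hs_sub_Fs R σ z t).trans hL
    have hcl : cl R (σ * sw L z y) y t = cl R σ z t := by
      unfold cl
      rw [h0, ih]
    have hfu : fu R (σ * sw L z y) y t = fu R σ z t := by
      unfold fu
      rw [hcl, ih]
      apply lk_transport h
      apply hH
      unfold Hs
      exact Finset.mem_insert_of_mem (Finset.mem_insert_self _ _)
    have hfv : fv R (σ * sw L z y) y t = fv R σ z t := by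
      unfold fv
      rw [hcl, ih]
      apply lk_transport h
      apply hH
      unfold Hs
      exact Finset.mem_insert_self _ _
    have hgg : gg R (σ * sw L z y) y t = gg R σ z t := by
      unfold gg
      rw [hcl, hfu, hfv]
    rw [st_succ, st_succ, hgg, hcl, hfu, hfv, ih, ev_transport h]
    apply hL
    rw [Fs_succ]
    exact Finset.mem_insert_self _ _

theorem Fs_congr {R : Alg K} {σ σ' : Equiv.Perm K} {z y : K} {t : ℕ}
    (h : st R σ' y t = st R σ z t) : Fs R σ' y t = Fs R σ z t := by
  unfold Fs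
  rw [h]

/-- the same up to the next call -/
theorem transport_half {R : Alg K} {σ : Equiv.Perm K} {z y : K} {X : Finset K} {t : ℕ}
    (h : Good (Hs R σ z t) X z y) :
    Hs R (σ * sw (Hs R σ z t) z y) y t = Hs R σ z t ∧
      gg R (σ * sw (Hs R σ z t) z y) y t = gg R σ z t := by
  obtain ⟨h0, h1⟩ := transport (R := R) h t (Fs_sub_Hs R σ z t)
  have hcl : cl R (σ * sw (Hs R σ z t) z y) y t = cl R σ z t := by
    unfold cl
    rw [h0, h1]
  have hfu : fu R (σ * sw (Hs R σ z t) z y) y t = fu R σ z t := by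
    conv_lhs => unfold fu
    rw [hcl, h1]
    apply lk_transport h
    unfold Hs
    exact Finset.mem_insert_of_mem (Finset.mem_insert_self _ _)
  have hfv : fv R (σ * sw (Hs R σ z t) z y) y t = fv R σ z t := by
    conv_lhs => unfold fv
    rw [hcl, h1]
    apply lk_transport h
    unfold Hs
    exact Finset.mem_insert_self _ _
  refine ⟨?_, ?_⟩
  · have e : ∀ σ' : Equiv.Perm K, Hs R σ' y t =
        insert (fv R σ' y t) (insert (fu R σ' y t) (Fs R σ' y t)) := fun _ => rfl
    rw [e, hfu, hfv, Fs_congr h1]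
    rfl
  · unfold gg
    rw [hcl, hfu, hfv]

/-- the same labels give the same answer -/
theorem transport_run {R : Alg K} {σ : Equiv.Perm K} {z y : K} {X : Finset K} {T : ℕ}
    (h : Good (Fs R σ z T) X z y) :
    run R (σ * sw (Fs R σ z T) z y) T y = run R σ T z ∧
      Fs R (σ * sw (Fs R σ z T) z y) y T = Fs R σ z T := by
  obtain ⟨h0, h1⟩ := transport (R := R) h T (Finset.Subset.refl _)
  refine ⟨?_, Fs_congr h1⟩
  unfold run
  rw [← st_fst, ← st_fst, h1, h0]

/-- the group elements touched by a run -/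
def tch (R : Alg K) (σ : Equiv.Perm K) (z : K) : ℕ → Finset K
  | 0 => {z}
  | t + 1 =>
    let o := R.next (σ z) (answers R σ (σ z) t)
    insert (o.c * σ.symm o.u + o.d * σ.symm o.v + o.e)
      (insert (σ.symm o.u) (insert (σ.symm o.v) (tch R σ z t)))

theorem card_tch (R : Alg K) (σ : Equiv.Perm K) (z : K) (t : ℕ) :
    (tch R σ z t).card ≤ 3 * t + 1 := by
  induction t with
  | zero => simp [tch]
  | succ t ih =>
    simp only [tch]
    refine (Finset.card_insert_le _ _).trans ?_
    have h1 := Finset.card_insert_le (σ.symm (R.next (σ z) (answers R σ (σ z) t)).u)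
      (insert (σ.symm (R.next (σ z) (answers R σ (σ z) t)).v) (tch R σ z t))
    have h2 := Finset.card_insert_le (σ.symm (R.next (σ z) (answers R σ (σ z) t)).v)
      (tch R σ z t)
    omega

/-- locality: a run only depends on the labels of the elements which it touches -/
theorem locality {R : Alg K} {σ σ' : Equiv.Perm K} {z : K} (t : ℕ)
    (h : ∀ x ∈ tch R σ z t, σ' x = σ x) :
    σ' z = σ z ∧ answers R σ' (σ' z) t = answers R σ (σ z) t ∧ tch R σ' z t = tch R σ z t := by
  induction t with
  | zero =>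
    have h0 : σ' z = σ z := h z (by simp [tch])
    exact ⟨h0, rfl, rfl⟩
  | succ t ih =>
    simp only [tch] at h
    obtain ⟨h0, h1, h2⟩ := ih fun x hx => h x
      (Finset.mem_insert_of_mem (Finset.mem_insert_of_mem (Finset.mem_insert_of_mem hx)))
    set o := R.next (σ z) (answers R σ (σ z) t) with ho
    have ho' : R.next (σ' z) (answers R σ' (σ' z) t) = o := by rw [h0, ← ho.symm, ← h0, h1, h0]
    have hu : σ'.symm o.u = σ.symm o.u := by
      rw [Equiv.symm_apply_eq, h (σ.symm o.u)
        (Finset.mem_insert_of_mem (Finset.mem_insert_self _ _)), Equiv.apply_symm_apply]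
    have hv : σ'.symm o.v = σ.symm o.v := by
      rw [Equiv.symm_apply_eq, h (σ.symm o.v)
        (Finset.mem_insert_of_mem (Finset.mem_insert_of_mem (Finset.mem_insert_self _ _))),
        Equiv.apply_symm_apply]
    refine ⟨h0, ?_, ?_⟩
    · simp only [answers]
      rw [ho', h1, ← ho]
      congr 1
      unfold reply
      rw [hu, hv]
      exact h _ (Finset.mem_insert_self _ _)
    · simp only [tch]
      rw [ho', hu, hv, h2]

theorem run_local {R : Alg K} {σ σ' : Equiv.Perm K} {z : K} {T : ℕ}
    (h : ∀ x ∈ tch R σ z T, σ' x = σ x) : run R σ' T z = run R σ T z := by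
  obtain ⟨h0, h1, -⟩ := locality T h
  unfold run
  rw [h1, h0]

end GGM3
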